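import Pool.Agent.Helper67_PGE.Loc

/-!
Squad PGE, module ELL: the curve `s ^ 2 = v ^ 3 + a v + b`, the maps `P -> 2 P - c`.
-/

set_option autoImplicit false

open Polynomial

universe u

namespace Pool.Agent.PGE.H67

section law

variable {L : Type*} [Field L] {a b x1 y1 x2 y2 m : L}

/-- the third point on a chord -/
theorem chord (h1 : y1 ^ 2 = x1 ^ 3 + a * x1 + b) (h2 : y2 ^ 2 = x2 ^ 3 + a * x2 + b)
    (hm : y2 - y1 = m * (x2 - x1)) (hx : x2 - x1 ≠ 0) :
    (m * (x1 - (m ^ 2 - x1 - x2)) - y1) ^ 2 =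
      (m ^ 2 - x1 - x2) ^ 3 + a * (m ^ 2 - x1 - x2) + b := by
  have hy : y2 = m * (x2 - x1) + y1 := by linear_combination hm
  have h3 : a + 2 * m ^ 2 * x1 - 2 * m * y1 -
      (x1 * x2 + x1 * (m ^ 2 - x1 - x2) + x2 * (m ^ 2 - x1 - x2)) = 0 := by
    apply mul_left_cancel₀ hx
    rw [hy] at h2
    linear_combination h1 - h2
  have h4 : b - (y1 - m * x1) ^ 2 + x1 * x2 * (m ^ 2 - x1 - x2) = 0 := by
    linear_combination -h1 - x1 * h3
  linear_combination (-(m ^ 2 - x1 - x2)) * h3 - h4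

/-- the third point on a tangent -/
theorem tangent (h1 : y1 ^ 2 = x1 ^ 3 + a * x1 + b) (hm : 2 * y1 * m = 3 * x1 ^ 2 + a) :
    (m * (x1 - (m ^ 2 - 2 * x1)) - y1) ^ 2 =
      (m ^ 2 - 2 * x1) ^ 3 + a * (m ^ 2 - 2 * x1) + b := by
  have h3 : a + 2 * m ^ 2 * x1 - 2 * m * y1 -
      (x1 * x1 + x1 * (m ^ 2 - 2 * x1) + x1 * (m ^ 2 - 2 * x1)) = 0 := by
    linear_combination -hm
  have h4 : b - (y1 - m * x1) ^ 2 + x1 * x1 * (m ^ 2 - 2 * x1) = 0 := by
    linear_combination -h1 - x1 * h3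
  linear_combination (-(m ^ 2 - 2 * x1)) * h3 - h4

end law

variable {k L : Type u} [Field k] [Field L] [Algebra k L]

/-- the step `P -> 2 P - c` -/
theorem step [CharZero k] {A : Subalgebra k L} (c : A →ₐ[k] k) (v s : A) (a b : k)
    (hs : (s : L) ^ 2 = (v : L) ^ 3 + algebraMap k L a * v + algebraMap k L b)
    (h0 : c s ≠ 0) (h3 : 3 * c v ^ 4 + 6 * a * c v ^ 2 + 12 * b * c v - a ^ 2 ≠ 0) :
    ∃ v1 s1 : L, s1 ^ 2 = v1 ^ 3 + algebraMap k L a * v1 + algebraMap k L b ∧
      Wr c v v1 (c v) 2 ∧ Reg c s1 (c s) := by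
  set x := c v with hx
  set y := c s with hy
  have hc : y ^ 2 = x ^ 3 + a * x + b := by
    have h1 : s ^ 2 = v ^ 3 + algebraMap k A a * v + algebraMap k A b := Subtype.ext hs
    have h2 := congrArg c h1
    simpa using h2
  have hcL : algebraMap k L y ^ 2 = algebraMap k L x ^ 3 + algebraMap k L a * algebraMap k L x +
      algebraMap k L b := by
    rw [← map_pow, hc]
    simp
  have hy2 : (2 : k) * y ≠ 0 := mul_ne_zero two_ne_zero h0
  obtain ⟨μ, hμ⟩ : ∃ μ, μ = (3 * x ^ 2 + a) / (2 * y) := ⟨_, rfl⟩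
  have hμ' : 2 * y * μ = 3 * x ^ 2 + a := by rw [hμ]; field_simp
  have hsr : Reg c (s : L) y := Reg.of_mem s
  have hvr : Reg c (v : L) x := Reg.of_mem v
  have hs0 : (s : L) ≠ 0 := hsr.ne_zero h0
  have hv1 : Wr c v (v : L) x 1 := Wr.self
  have hK : ∀ t : k, Wr c v (algebraMap k L t) t 0 := fun t => Wr.const t
  have h2L : Wr c v (2 : L) 2 0 := by
    have := hK 2
    rwa [map_ofNat] at this
  have h3L : Wr c v (3 : L) 3 0 := by
    have := hK 3
    rwa [map_ofNat] at this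
  -- expansion of `s`
  have hsum : Reg c ((s : L) + algebraMap k L y) (y + y) := hsr.add (Reg.const y)
  have hyy : y + y ≠ 0 := by rw [← two_mul]; exact hy2
  have hsum0 := hsum.ne_zero hyy
  have hs1 : Wr c v (s : L) y μ := by
    have hg : Reg c ((v : L) ^ 2 + v * algebraMap k L x + algebraMap k L x ^ 2 +
        algebraMap k L a) _ :=
      (((hvr.pow 2).add (hvr.mul (Reg.const x))).add ((Reg.const x).pow 2)).add (Reg.const a)
    refine ⟨(((v : L) + 2 * algebraMap k L x) - algebraMap k L μ * (((v : L) ^ 2 +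
      v * algebraMap k L x + algebraMap k L x ^ 2 + algebraMap k L a) /
        ((s : L) + algebraMap k L y))) / ((s : L) + algebraMap k L y), _,
      ((hvr.add (h2L.reg.mul (Reg.const x))).sub ((Reg.const μ).mul (hg.div hsum hyy))).div hsum
        hyy, ?_⟩
    have hμL : 2 * algebraMap k L y * algebraMap k L μ = 3 * algebraMap k L x ^ 2 +
        algebraMap k L a := by
      have := congrArg (algebraMap k L) hμ'
      rwa [map_mul, map_mul, map_add, map_mul, map_pow, map_ofNat, map_ofNat] at this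
    rw [← hx]
    field_simp
    have e : ((s : L) - algebraMap k L y) * (s + algebraMap k L y) =
        ((v : L) - algebraMap k L x) * ((v : L) ^ 2 + v * algebraMap k L x +
          algebraMap k L x ^ 2 + algebraMap k L a) := by
      linear_combination hs - hcL
    linear_combination (((s : L) + algebraMap k L y) - algebraMap k L μ *
      ((v : L) - algebraMap k L x)) * e - ((v : L) - algebraMap k L x) *
      ((s : L) + algebraMap k L y) * hμL
  -- the slope of the tangent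
  obtain ⟨m, hm⟩ : ∃ m : L, m = (3 * (v : L) ^ 2 + algebraMap k L a) / (2 * s) := ⟨_, rfl⟩
  obtain ⟨m', hm'⟩ : ∃ m' : k, m' = (3 * x - μ ^ 2) / y := ⟨_, rfl⟩
  have hmL : 2 * (s : L) * m = 3 * (v : L) ^ 2 + algebraMap k L a := by
    rw [hm]
    have h2 : (2 : L) ≠ 0 := h2L.reg.ne_zero two_ne_zero
    field_simp
  have hm1 : Wr c v m μ m' := by
    have e1 : Wr c v (3 * (v : L) ^ 2 + algebraMap k L a) (3 * x ^ 2 + a) (6 * x) := by
      rw [pow_two (v : L)]
      refine ((h3L.mul (hv1.mul hv1)).add (hK a)).congr (by ring) (by ring)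
    have e2 : Wr c v (2 * (s : L)) (2 * y) (2 * μ) :=
      (h2L.mul hs1).congr rfl (by ring)
    rw [hm]
    refine (e1.div e2 hy2).congr hμ.symm ?_
    rw [← hμ, hm']
    field_simp
    ring
  -- the double
  obtain ⟨v2, hv2⟩ : ∃ v2 : L, v2 = m ^ 2 - 2 * v := ⟨_, rfl⟩
  obtain ⟨s2, hs2⟩ : ∃ s2 : L, s2 = m * ((v : L) - v2) - s := ⟨_, rfl⟩
  have hE2 : s2 ^ 2 = v2 ^ 3 + algebraMap k L a * v2 + algebraMap k L b := by
    rw [hs2, hv2]
    exact tangent hs hmL
  have hw2 : Wr c v v2 (μ ^ 2 - 2 * x) (2 * μ * m' - 2) := by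
    rw [hv2, pow_two m]
    exact ((hm1.mul hm1).sub (h2L.mul hv1)).congr (by ring) (by ring)
  have hws2 : Wr c v s2 (μ * (x - (μ ^ 2 - 2 * x)) - y)
      (m' * (x - (μ ^ 2 - 2 * x)) + μ * (1 - (2 * μ * m' - 2)) - μ) := by
    rw [hs2]
    exact ((hm1.mul (hv1.sub hw2)).sub hs1).congr (by ring) (by ring)
  have hd : μ ^ 2 - 2 * x - x ≠ 0 := by
    intro h
    apply h3
    have e1 : μ ^ 2 = 3 * x := by linear_combination h
    have e2 : (2 * y * μ) ^ 2 = 12 * x * (x ^ 3 + a * x + b) := by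
      rw [mul_pow, mul_pow, e1, hc]
      ring
    rw [hμ'] at e2
    linear_combination -e2
  have hwd : Wr c v (v2 - algebraMap k L x) (μ ^ 2 - 2 * x - x) (2 * μ * m' - 2) :=
    (hw2.sub (hK x)).congr rfl (by ring)
  have hwn : Wr c v (s2 + algebraMap k L y) (μ * (x - (μ ^ 2 - 2 * x)))
      (m' * (x - (μ ^ 2 - 2 * x)) + μ * (1 - (2 * μ * m' - 2)) - μ) :=
    (hws2.add (hK y)).congr (by ring) (by ring)
  -- the slope of the chord
  obtain ⟨n, hn⟩ : ∃ n : L, n = (s2 + algebraMap k L y) / (v2 - algebraMap k L x) := ⟨_, rfl⟩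
  have hd0 := hwd.reg.ne_zero hd
  have hwnn : Wr c v n (-μ) (-m') := by
    rw [hn]
    have e1 : μ * (x - (μ ^ 2 - 2 * x)) / (μ ^ 2 - 2 * x - x) = -μ := by
      rw [div_eq_iff hd]
      ring
    refine (hwn.div hwd hd).congr e1 ?_
    rw [e1, div_eq_iff hd]
    ring
  have hE1 := chord (a := algebraMap k L a) (b := algebraMap k L b) (x1 := algebraMap k L x)
    (y1 := -algebraMap k L y) (x2 := v2) (y2 := s2) (m := n) (by rw [neg_sq]; exact hcL) hE2
    (by rw [hn]; field_simp; ring) hd0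
  refine ⟨n ^ 2 - algebraMap k L x - v2, n * (algebraMap k L x -
    (n ^ 2 - algebraMap k L x - v2)) - -algebraMap k L y, hE1, ?_, ?_⟩
  · rw [pow_two n]
    refine (((hwnn.mul hwnn).sub (hK x)).sub hw2).congr ?_ ?_
    · ring
    · ring
  · rw [pow_two n]
    have e := ((hwnn.reg.mul ((Reg.const x).sub (((hwnn.reg.mul hwnn.reg).sub
      (Reg.const x)).sub hw2.reg))).sub (Reg.const y).neg)
    have e1 : -μ * (x - (-μ * -μ - x - (μ ^ 2 - 2 * x))) - -y = y := by ring
    rw [e1] at e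
    exact e

theorem exists_const [IsAlgClosed k] {x : L} (hx : IsAlgebraic k x) :
    ∃ t : k, algebraMap k L t = x := by
  have h1 : Algebra.IsAlgebraic k (IntermediateField.adjoin k {x}) :=
    IntermediateField.isAlgebraic_adjoin_simple hx.isIntegral
  have h2 := IntermediateField.eq_bot_of_isAlgClosed_of_isAlgebraic
    (IntermediateField.adjoin k {x})
  have h3 := IntermediateField.mem_adjoin_simple_self k x
  rw [h2, IntermediateField.mem_bot] at h3
  exact h3

/-- ELL -/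
theorem ell (hsmo : SMOStmt.{u}) : ELLStmt.{u} := by
  intro k L _ _ _ _ _ v s a b hv hs htop
  obtain ⟨Q, hQ⟩ : ∃ Q : k[X], Q = X ^ 3 + C a * X + C b := ⟨_, rfl⟩
  have hsQ : s ^ 2 = aeval v Q := by
    rw [hQ, hs]
    simp
  have hdeg : Q.natDegree = 3 := by
    rw [hQ]
    compute_degree!
  have hQ0 : Q ≠ 0 := by
    rintro rfl
    simp at hdeg
  have hodd : Odd Q.natDegree := by rw [hdeg]; decide
  obtain ⟨R, hR⟩ : ∃ R : k[X], R = C 3 * X ^ 4 + C (6 * a) * X ^ 2 + C (12 * b) * X - C (a ^ 2) :=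
    ⟨_, rfl⟩
  have hR0 : R ≠ 0 := by
    intro h
    have h1 : R.coeff 4 = 3 := by
      rw [hR, coeff_sub, coeff_add, coeff_add, coeff_C_mul_X_pow, coeff_C_mul_X_pow,
        coeff_C_mul_X, coeff_C]
      norm_num
    rw [h, coeff_zero] at h1
    exact three_ne_zero h1.symm
  refine ⟨fun x hx => alg_of_trans (alg_v hv hsQ htop) hx, ?_⟩
  intro S
  obtain ⟨D0, hD0, hS⟩ := finset_mem_A hv hsQ htop S
  obtain ⟨D, hD⟩ : ∃ D : k[X], D = D0 * Q * R := ⟨_, rfl⟩
  have hDne : D ≠ 0 := by rw [hD]; exact mul_ne_zero (mul_ne_zero hD0 hQ0) hR0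
  have hsm := hsmo k L v s Q D hv hsQ hQ0 hDne ⟨D0 * R, by rw [hD]; ring⟩ htop
  obtain ⟨A, hA⟩ : ∃ A : Subalgebra k L, A = Algebra.adjoin k {v, s, (aeval v D)⁻¹} := ⟨_, rfl⟩
  rw [← hA] at hsm
  have hvA : v ∈ A := by rw [hA]; exact Algebra.subset_adjoin (by simp)
  have hsA : s ∈ A := by rw [hA]; exact Algebra.subset_adjoin (by simp)
  have hdA : (aeval v D)⁻¹ ∈ A := by rw [hA]; exact Algebra.subset_adjoin (by simp)
  have hft := hsm.ft
  obtain ⟨c⟩ := exists_pt (k := k) A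
  obtain ⟨v', hv'⟩ : ∃ v' : A, v' = ⟨v, hvA⟩ := ⟨_, rfl⟩
  obtain ⟨s', hs'⟩ : ∃ s' : A, s' = ⟨s, hsA⟩ := ⟨_, rfl⟩
  have hvv : (v' : L) = v := by rw [hv']
  have hss : (s' : L) = s := by rw [hs']
  have hDv : Reg c (aeval v D) (eval (c v') D) := by
    have := (Reg.of_mem (c := c) v').aeval D
    rwa [hvv] at this
  have hDc : eval (c v') D ≠ 0 := by
    intro h
    rw [h] at hDv
    have h1 := hDv.mul (Reg.of_mem (c := c) (⟨_, hdA⟩ : A))
    rw [zero_mul, mul_inv_cancel₀ (aeval_ne hv hDne)] at h1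
    exact zero_ne_one (h1.unique Reg.one)
  have hDinv : c ⟨_, hdA⟩ = (eval (c v') D)⁻¹ :=
    (Reg.of_mem (c := c) (⟨_, hdA⟩ : A)).unique (hDv.inv hDc)
  rw [hD, eval_mul, eval_mul] at hDc
  have hQc := (mul_ne_zero_iff.1 (mul_ne_zero_iff.1 hDc).1).2
  have hRc := (mul_ne_zero_iff.1 hDc).2
  rw [← eval_mul, ← eval_mul, ← hD] at hDc
  have hsc : c s' ≠ 0 := by
    intro h
    apply hQc
    have h1 : Reg c (aeval v Q) (eval (c v') Q) := by
      have := (Reg.of_mem (c := c) v').aeval Q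
      rwa [hvv] at this
    have h2 := (Reg.of_mem (c := c) s').pow 2
    rw [hss, hsQ, h] at h2
    rw [h1.unique h2]
    simp
  obtain ⟨v1, s1, hE, hw, hr⟩ := step c v' s' a b (by rw [hvv, hss]; exact hs) hsc (by
    rw [hR] at hRc
    simpa using hRc)
  have hpi : (v' : L) - algebraMap k L (c v') ≠ 0 := by
    intro h
    rw [hvv, sub_eq_zero] at h
    rw [h] at hv
    exact hv (isAlgebraic_algebraMap _)
  have hv1 : Transcendental k v1 := by
    intro halg
    obtain ⟨t, ht⟩ := exists_const halg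
    rw [← ht] at hw
    have h1 : Wr c v' (algebraMap k L t) t 0 := Wr.const t
    exact two_ne_zero (hw.unique h1 hpi)
  obtain ⟨φ, hφv, hφs⟩ := exists_hom hsQ hv hodd htop (v' := v1) (s' := s1)
    (by rw [hE, hQ]; simp) hv1
  have hφA : ∀ (x : L) (hx : x ∈ A), Reg c (φ x) (c ⟨x, hx⟩) := by
    subst hA
    intro x hx
    induction hx using Algebra.adjoin_induction with
    | mem x hx =>
      rcases hx with rfl | rfl | hx
      · rw [hφv, ← hv']
        exact hw.reg
      · rw [hφs, ← hs']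
        exact hr
      · have hx' : x = (aeval v D)⁻¹ := hx
        subst hx'
        rw [hDinv, map_inv₀]
        refine Reg.inv ?_ hDc
        have h1 : φ (aeval v D) = aeval v1 D := by
          rw [← hφv]
          exact (aeval_algHom_apply φ v D).symm
        rw [h1]
        exact hw.reg.aeval D
    | algebraMap r =>
      rw [AlgHom.commutes]
      have h1 := c.commutes r
      have h2 : c ⟨algebraMap k L r, Subalgebra.algebraMap_mem _ r⟩ = r := h1
      rw [h2]
      exact Reg.const r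
    | add x y hx hy ihx ihy =>
      have h1 : c ⟨x + y, add_mem hx hy⟩ = c ⟨x, hx⟩ + c ⟨y, hy⟩ := by
        rw [← map_add]
        rfl
      rw [h1, map_add]
      exact ihx.add ihy
    | mul x y hx hy ihx ihy =>
      have h1 : c ⟨x * y, mul_mem hx hy⟩ = c ⟨x, hx⟩ * c ⟨y, hy⟩ := by
        rw [← map_mul]
        rfl
      rw [h1, map_mul]
      exact ihx.mul ihy
  have hφR : ∀ (x : L) (t : k), Reg c x t → Reg c (φ x) t := by
    rintro x t ⟨p, q, h1, h2, h3⟩
    have hq := hφA q q.2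
    have hp := hφA p p.2
    have hq0 := hq.ne_zero h1
    have h4 : φ x = φ p / φ q := by
      rw [eq_div_iff hq0, ← map_mul, h2]
    rw [h4]
    have h5 : t = c p / c q := by
      rw [eq_div_iff h1, h3]
    rw [h5]
    exact hp.div hq h1
  have hpR : ∀ (j : ℕ) (x : L) (t : k), Reg c x t → Reg c ((φ ^ j) x) t := by
    intro j
    induction j with
    | zero =>
      intro x t h
      rw [pow_zero]
      exact h
    | succ j ih =>
      intro x t h
      rw [pow_succ', AlgHom.mul_apply]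
      exact hφR _ _ (ih x t h)
  have hpW : ∀ j : ℕ, Wr c v' ((φ ^ j) v) (c v') (2 ^ j) := by
    intro j
    induction j with
    | zero =>
      rw [pow_zero, pow_zero]
      have h1 : Wr c v' (v' : L) (c v') 1 := Wr.self
      rw [hvv] at h1
      exact h1
    | succ j ih =>
      rw [pow_succ', AlgHom.mul_apply, pow_succ']
      exact Wr.map hφR (by rw [hvv, hφv]; exact hw) ih
  refine ⟨A, c, fun j => (φ ^ j).comp A.val, ?_, hsm, ?_, ?_, ?_⟩
  · intro x hx
    rw [hA]
    exact hS D ⟨Q * R, by rw [hD]; ring⟩ hDne x hx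
  · intro i j hij
    have h1 : (φ ^ i) v = (φ ^ j) v := congrArg (fun f : A →ₐ[k] L => f ⟨v, hvA⟩) hij
    have h2 := hpW i
    rw [h1] at h2
    have h3 := h2.unique (hpW j) hpi
    have h4 : (2 : ℕ) ^ i = 2 ^ j := by exact_mod_cast h3
    exact Nat.pow_right_injective le_rfl h4
  · intro j x y hxy
    have h1 : (φ ^ j) (x : L) = (φ ^ j) (y : L) := hxy
    exact Subtype.ext ((φ ^ j).toRingHom.injective h1)
  · intro j x
    obtain ⟨p, q, h1, h2, h3⟩ := hpR j x (c x) (Reg.of_mem x)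
    exact ⟨p, q, h1, h2, h3⟩

end Pool.Agent.PGE.H67
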