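import Pool.Agent.Helper45_PGE.Defs

/-!
Squad PGE, module ELL, part 1: the function field of `s ^ 2 = Q(v)`.
-/

set_option autoImplicit false

open Polynomial

universe u

namespace Pool.Agent.PGE.H67

variable {k L : Type u} [Field k] [Field L] [Algebra k L]

open scoped IntermediateField.algebraAdjoinAdjoin in
/-- transcendence degree one -/
theorem alg_of_trans {v : L} (hv : Algebra.IsAlgebraic (IntermediateField.adjoin k {v}) L) {x : L}
    (hx : Transcendental k x) : Algebra.IsAlgebraic (IntermediateField.adjoin k {x}) L := by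
  have h1 : Algebra.IsAlgebraic (Algebra.adjoin k {v}) L := by
    exact (IsFractionRing.comap_isAlgebraic_iff (A := Algebra.adjoin k {v})
      (K := IntermediateField.adjoin k {v}) (C := L)).2 hv
  have h2 : Algebra.trdeg k L ≤ 1 := by
    have := Algebra.IsAlgebraic.trdeg_le_cardinalMk k ({v} : Set L)
    rwa [Cardinal.mk_singleton] at this
  have h3 : AlgebraicIndependent k (fun _ : PUnit.{u+1} => x) :=
    algebraicIndependent_unique_type_iff.2 hx
  have h4 : IsTranscendenceBasis k (fun _ : PUnit.{u+1} => x) :=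
    h3.isTranscendenceBasis_of_trdeg_le_of_finite (by simpa using h2)
  have h5 := h4.isAlgebraic_field
  rwa [Set.range_const] at h5

/-- `x = (p(v) + q(v) s) / d(v)` -/
def Rep (k : Type u) {L : Type u} [Field k] [Field L] [Algebra k L] (v s x : L) : Prop :=
  ∃ p q d : k[X], d ≠ 0 ∧ x * aeval v d = aeval v p + aeval v q * s

section rep

variable {v s : L} {Q : k[X]}

theorem aeval_ne {v : L} (hv : Transcendental k v) {d : k[X]} (hd : d ≠ 0) : aeval v d ≠ 0 := by
  intro h
  exact hv ⟨d, hd, h⟩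

theorem aeval_eq_zero {v : L} (hv : Transcendental k v) {d : k[X]} (hd : aeval v d = 0) :
    d = 0 := by
  by_contra h
  exact aeval_ne hv h hd

theorem Rep.add {x y : L} (hx : Rep k v s x) (hy : Rep k v s y) : Rep k v s (x + y) := by
  obtain ⟨p, q, d, hd, h⟩ := hx
  obtain ⟨p', q', d', hd', h'⟩ := hy
  refine ⟨p * d' + p' * d, q * d' + q' * d, d * d', mul_ne_zero hd hd', ?_⟩
  simp only [map_add, map_mul]
  linear_combination (aeval v d') * h + (aeval v d) * h'

theorem Rep.mul (hs : s ^ 2 = aeval v Q) {x y : L} (hx : Rep k v s x) (hy : Rep k v s y) :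
    Rep k v s (x * y) := by
  obtain ⟨p, q, d, hd, h⟩ := hx
  obtain ⟨p', q', d', hd', h'⟩ := hy
  refine ⟨p * p' + q * q' * Q, p * q' + q * p', d * d', mul_ne_zero hd hd', ?_⟩
  simp only [map_add, map_mul]
  linear_combination (y * aeval v d') * h + (aeval v p + aeval v q * s) * h' +
    aeval v q * aeval v q' * hs

theorem Rep.algebraMap (c : k) : Rep k v s (algebraMap k L c) :=
  ⟨C c, 0, 1, one_ne_zero, by simp⟩

theorem Rep.inv [CharZero k] (hv : Transcendental k v) (hs : s ^ 2 = aeval v Q) {x : L}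
    (hx : Rep k v s x) : Rep k v s x⁻¹ := by
  by_cases h0 : x = 0
  · rw [h0, inv_zero]
    exact ⟨0, 0, 1, one_ne_zero, by simp⟩
  obtain ⟨p, q, d, hd, h⟩ := hx
  by_cases hN : p ^ 2 - q ^ 2 * Q = 0
  · have h1 : (aeval v p + aeval v q * s) * (aeval v p - aeval v q * s) = 0 := by
      have h2 := congrArg (aeval v) hN
      simp only [map_sub, map_mul, map_pow, map_zero] at h2
      linear_combination h2 - (aeval v q) ^ 2 * hs
    have h3 : aeval v p + aeval v q * s ≠ 0 := by
      rw [← h]
      exact mul_ne_zero h0 (aeval_ne hv hd)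
    have h4 := (mul_eq_zero.1 h1).resolve_left h3
    have h5 : x * aeval v d = aeval v (2 * p) := by
      rw [map_mul, map_ofNat]
      linear_combination h - h4
    have h6 : (2 * p : k[X]) ≠ 0 := by
      intro h6
      rw [h6, map_zero] at h5
      exact mul_ne_zero h0 (aeval_ne hv hd) h5
    refine ⟨d, 0, 2 * p, h6, ?_⟩
    rw [← h5, map_zero, zero_mul, add_zero]
    field_simp
  · refine ⟨d * p, - (d * q), p ^ 2 - q ^ 2 * Q, hN, ?_⟩
    have h1 : aeval v (p ^ 2 - q ^ 2 * Q) = x * aeval v d * (aeval v p - aeval v q * s) := by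
      rw [h]
      simp only [map_sub, map_mul, map_pow]
      linear_combination (aeval v q) ^ 2 * hs
    rw [h1]
    simp only [map_neg, map_mul]
    field_simp
    ring

theorem rep_all [CharZero k] (hv : Transcendental k v) (hs : s ^ 2 = aeval v Q)
    (htop : IntermediateField.adjoin k {v, s} = ⊤) (x : L) : Rep k v s x := by
  let T : IntermediateField k L :=
    { carrier := {x | Rep k v s x}
      mul_mem' := fun hx hy => Rep.mul hs hx hy
      add_mem' := fun hx hy => Rep.add hx hy
      algebraMap_mem' := fun c => Rep.algebraMap c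
      inv_mem' := fun x hx => Rep.inv hv hs hx }
  have h1 : IntermediateField.adjoin k {v, s} ≤ T := by
    rw [IntermediateField.adjoin_le_iff]
    rintro y (rfl | rfl)
    · exact ⟨X, 0, 1, one_ne_zero, by simp⟩
    · exact ⟨0, 1, 1, one_ne_zero, by simp⟩
  rw [htop] at h1
  exact h1 (IntermediateField.mem_top (x := x))

theorem alg_v [CharZero k] (hv : Transcendental k v) (hs : s ^ 2 = aeval v Q)
    (htop : IntermediateField.adjoin k {v, s} = ⊤) :
    Algebra.IsAlgebraic (IntermediateField.adjoin k {v}) L := by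
  have hpol : ∀ p : k[X], IsAlgebraic (IntermediateField.adjoin k {v}) (aeval v p) := by
    intro p
    have : aeval v p ∈ IntermediateField.adjoin k {v} := by
      apply IntermediateField.algebra_adjoin_le_adjoin k {v}
      exact aeval_mem_adjoin_singleton k v
    exact isAlgebraic_algebraMap (⟨aeval v p, this⟩ : IntermediateField.adjoin k {v})
  refine ⟨fun x => ?_⟩
  obtain ⟨p, q, d, hd, h⟩ := rep_all hv hs htop x
  have h1 : x = (aeval v p + aeval v q * s) * (aeval v d)⁻¹ := by
    rw [← h, mul_inv_cancel_right₀ (aeval_ne hv hd)]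
  have hsa : IsAlgebraic (IntermediateField.adjoin k {v}) s := by
    apply IsAlgebraic.of_pow (n := 2) (by norm_num)
    rw [hs]
    exact hpol Q
  rw [h1]
  exact ((hpol p).add ((hpol q).mul hsa)).mul (hpol d).inv

/-- membership in the coordinate ring -/
theorem mem_A [CharZero k] (hv : Transcendental k v) (hs : s ^ 2 = aeval v Q)
    (htop : IntermediateField.adjoin k {v, s} = ⊤) (x : L) :
    ∃ D : k[X], D ≠ 0 ∧ ∀ D' : k[X], D ∣ D' → D' ≠ 0 →
      x ∈ Algebra.adjoin k {v, s, (aeval v D')⁻¹} := by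
  obtain ⟨p, q, d, hd, h⟩ := rep_all hv hs htop x
  refine ⟨d, hd, ?_⟩
  rintro _ ⟨c, rfl⟩ hD
  have hpol : ∀ p : k[X], aeval v p ∈ Algebra.adjoin k {v, s, (aeval v (d * c))⁻¹} := by
    intro p
    have h1 : v ∈ Algebra.adjoin k {v, s, (aeval v (d * c))⁻¹} :=
      Algebra.subset_adjoin (by simp)
    exact (Algebra.adjoin_le (S := Algebra.adjoin k {v, s, (aeval v (d * c))⁻¹})
      (Set.singleton_subset_iff.2 h1)) (aeval_mem_adjoin_singleton k v)
  have h1 : x = (aeval v p + aeval v q * s) * aeval v c * (aeval v (d * c))⁻¹ := by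
    rw [← h, map_mul]
    have h2 := aeval_ne hv hD
    rw [map_mul] at h2
    have h3 := mul_ne_zero_iff.1 h2
    have := h3.1
    have := h3.2
    field_simp
  rw [h1]
  refine mul_mem (mul_mem (add_mem (hpol p) (mul_mem (hpol q) ?_)) (hpol c)) ?_
  · exact Algebra.subset_adjoin (by simp)
  · exact Algebra.subset_adjoin (by simp)

theorem finset_mem_A [CharZero k] (hv : Transcendental k v) (hs : s ^ 2 = aeval v Q)
    (htop : IntermediateField.adjoin k {v, s} = ⊤) (S : Finset L) :
    ∃ D : k[X], D ≠ 0 ∧ ∀ D' : k[X], D ∣ D' → D' ≠ 0 →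
      ∀ x ∈ S, x ∈ Algebra.adjoin k {v, s, (aeval v D')⁻¹} := by
  classical
  choose D hD hD' using mem_A hv hs htop
  refine ⟨∏ x ∈ S, D x, Finset.prod_ne_zero_iff.2 fun x _ => hD x, ?_⟩
  intro D' h h0 x hx
  exact hD' x D' ((Finset.dvd_prod_of_mem D hx).trans h) h0

/-- independence -/
theorem no_rep (hv : Transcendental k v) (hs : s ^ 2 = aeval v Q) (hQ : Odd Q.natDegree)
    {p q : k[X]} (h : aeval v p + aeval v q * s = 0) : p = 0 ∧ q = 0 := by
  have h1 : p ^ 2 = q ^ 2 * Q := by
    rw [← sub_eq_zero]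
    apply aeval_eq_zero hv
    simp only [map_sub, map_mul, map_pow]
    linear_combination (aeval v p - aeval v q * s) * h + (aeval v q) ^ 2 * hs
  have hQ0 : Q ≠ 0 := by
    rintro rfl
    simp at hQ
  by_cases hq : q = 0
  · rw [hq] at h1
    refine ⟨?_, hq⟩
    simpa using h1
  · exfalso
    have h2 := congrArg natDegree h1
    rw [natDegree_mul (pow_ne_zero 2 hq) hQ0, natDegree_pow, natDegree_pow] at h2
    obtain ⟨m, hm⟩ := hQ
    omega

end rep

section lift

variable {Q : k[X]}

/-- the point `(v, s)` as a homomorphism on the coordinate ring -/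
noncomputable def pt (Q : k[X]) (v s : L) (h : s ^ 2 = aeval v Q) :
    AdjoinRoot (X ^ 2 - C Q : k[X][X]) →ₐ[k] L :=
  AdjoinRoot.liftAlgHom _ (aeval v) s (by
    rw [eval₂_sub, eval₂_pow, eval₂_X, eval₂_C, h]
    exact sub_self _)

theorem pt_of (v s : L) (h : s ^ 2 = aeval v Q) (p : k[X]) :
    pt Q v s h (AdjoinRoot.of _ p) = aeval v p :=
  AdjoinRoot.liftAlgHom_of _ _ _ _ _

theorem pt_root (v s : L) (h : s ^ 2 = aeval v Q) :
    pt Q v s h (AdjoinRoot.root _) = s :=
  AdjoinRoot.liftAlgHom_root _ _ _ _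

theorem mk_rep {R : Type u} [CommRing R] [Nontrivial R] (g : R[X]) (hg : g.Monic)
    (hd : g.natDegree = 2) (f : R[X]) :
    ∃ a b : R, AdjoinRoot.mk g f = AdjoinRoot.mk g (C a * X + C b) := by
  have h1 : AdjoinRoot.mk g f = AdjoinRoot.mk g (f %ₘ g) := by
    rw [AdjoinRoot.mk_eq_mk]
    refine ⟨f /ₘ g, ?_⟩
    have := modByMonic_add_div f g
    linear_combination -this
  have h2 : (f %ₘ g).natDegree < 2 := by
    rw [← hd]
    apply natDegree_modByMonic_lt _ hg
    intro h
    rw [h, natDegree_one] at hd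
    norm_num at hd
  refine ⟨(f %ₘ g).coeff 1, (f %ₘ g).coeff 0, ?_⟩
  rw [h1]
  congr 1
  exact eq_X_add_C_of_natDegree_le_one (by omega)

theorem pt_inj {v s : L} (h : s ^ 2 = aeval v Q) (hv : Transcendental k v)
    (hQ : Odd Q.natDegree) : Function.Injective (pt Q v s h) := by
  rw [injective_iff_map_eq_zero]
  intro x hx
  obtain ⟨f, rfl⟩ := AdjoinRoot.mk_surjective x
  obtain ⟨a, b, hab⟩ := mk_rep (X ^ 2 - C Q : k[X][X]) (monic_X_pow_sub_C Q (by norm_num))
    natDegree_X_pow_sub_C f
  rw [hab] at hx ⊢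
  rw [map_add, map_mul, AdjoinRoot.mk_C, AdjoinRoot.mk_C, AdjoinRoot.mk_X] at hx ⊢
  rw [map_add, map_mul, pt_of, pt_of, pt_root, add_comm] at hx
  obtain ⟨h4, h5⟩ := no_rep hv h hQ hx
  rw [h4, h5, map_zero, zero_mul, zero_add]

/-- homomorphisms on a fraction field -/
theorem exists_hom_aux {R : Type u} [CommRing R] [Algebra k R] (f f' : R →ₐ[k] L)
    (hf : Function.Injective f) (hf' : Function.Injective f')
    (hgen : ∀ x : L, ∃ a b : R, b ≠ 0 ∧ x * f b = f a) :
    ∃ φ : L →ₐ[k] L, ∀ r, φ (f r) = f' r := by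
  have hdom : IsDomain R := hf.isDomain f.toRingHom
  let : Algebra R L := f.toRingHom.toAlgebra
  have hst : IsScalarTower k R L := .of_algebraMap_eq fun x => (f.commutes x).symm
  have hff : FaithfulSMul R L := (faithfulSMul_iff_algebraMap_injective R L).2 hf
  have hfr : IsFractionRing R L := by
    refine IsFractionRing.of_field _ _ fun x => ?_
    obtain ⟨a, b, hb, h⟩ := hgen x
    refine ⟨a, b, ?_⟩
    change x = f a / f b
    rw [← h, mul_div_cancel_right₀]
    exact (map_ne_zero_iff f hf).2 hb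
  exact ⟨IsFractionRing.liftAlgHom (K := L) (g := f') hf',
    fun r => IsFractionRing.lift_algebraMap hf' r⟩

/-- an endomorphism of the function field given by a point -/
theorem exists_hom [CharZero k] {v s : L} (h : s ^ 2 = aeval v Q) (hv : Transcendental k v)
    (hQ : Odd Q.natDegree) (htop : IntermediateField.adjoin k {v, s} = ⊤) {v' s' : L}
    (h' : s' ^ 2 = aeval v' Q) (hv' : Transcendental k v') :
    ∃ φ : L →ₐ[k] L, φ v = v' ∧ φ s = s' := by
  obtain ⟨φ, hφ⟩ := exists_hom_aux (pt Q v s h) (pt Q v' s' h') (pt_inj h hv hQ)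
    (pt_inj h' hv' hQ) (by
      intro x
      obtain ⟨p, q, d, hd, hx⟩ := rep_all hv h htop x
      refine ⟨AdjoinRoot.of _ p + AdjoinRoot.of _ q * AdjoinRoot.root _, AdjoinRoot.of _ d, ?_, ?_⟩
      · intro h0
        have h1 := pt_of (Q := Q) v s h d
        rw [h0, map_zero] at h1
        exact aeval_ne hv hd h1.symm
      · rw [map_add, map_mul, pt_of, pt_of, pt_of, pt_root, hx])
  refine ⟨φ, ?_, ?_⟩
  · have h1 := hφ (AdjoinRoot.of _ X)
    rw [pt_of, pt_of, aeval_X, aeval_X] at h1
    exact h1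
  · have h1 := hφ (AdjoinRoot.root _)
    rw [pt_root, pt_root] at h1
    exact h1

end lift

/-- every nonzero algebra of finite type over an algebraically closed field has a point -/
theorem exists_pt [IsAlgClosed k] (A : Type u) [CommRing A] [Nontrivial A] [Algebra k A]
    [Algebra.FiniteType k A] : Nonempty (A →ₐ[k] k) := by
  obtain ⟨m, hm⟩ := Ideal.exists_maximal A
  let := Ideal.Quotient.field m
  have h0 : Algebra.FiniteType k (A ⧸ m) :=
    Algebra.FiniteType.of_surjective (A := A) (Ideal.Quotient.mkₐ k m)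
      (Ideal.Quotient.mkₐ_surjective k m)
  have h1 := finite_of_finite_type_of_isJacobsonRing k (A ⧸ m)
  have h2 : Algebra.IsIntegral k (A ⧸ m) := inferInstance
  have h3 : Function.Bijective (algebraMap k (A ⧸ m)) :=
    IsAlgClosed.algebraMap_bijective_of_isIntegral
  let e : k ≃ₐ[k] (A ⧸ m) := AlgEquiv.ofBijective (Algebra.ofId k (A ⧸ m)) h3
  exact ⟨e.symm.toAlgHom.comp (Ideal.Quotient.mkₐ k m)⟩

end Pool.Agent.PGE.H67
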