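import Pool.Agent.Helper67_PGE.Fld

/-!
Squad PGE, module ELL, part 2: the local ring at a point, first order expansions.
-/

set_option autoImplicit false

open Polynomial

universe u

namespace Pool.Agent.PGE.H67

variable {k L : Type u} [Field k] [Field L] [Algebra k L] {A : Subalgebra k L} (c : A →ₐ[k] k)

/-- `x` is regular at the point `c` with value `t` -/
def Reg (x : L) (t : k) : Prop :=
  ∃ p q : A, c q ≠ 0 ∧ x * (q : L) = (p : L) ∧ c p = t * c q

variable {c}

theorem Reg.of_mem (a : A) : Reg c (a : L) (c a) :=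
  ⟨a, 1, by simp, by simp, by simp⟩

theorem Reg.const (t : k) : Reg c (algebraMap k L t) t :=
  ⟨algebraMap k A t, 1, by simp, by simp, by simp⟩

theorem Reg.zero : Reg c (0 : L) 0 := by
  simpa using Reg.const (c := c) (L := L) 0

theorem Reg.one : Reg c (1 : L) 1 := by
  simpa using Reg.const (c := c) (L := L) 1

theorem Reg.add {x y : L} {t u : k} (hx : Reg c x t) (hy : Reg c y u) : Reg c (x + y) (t + u) := by
  obtain ⟨p, q, h1, h2, h3⟩ := hx
  obtain ⟨p', q', h1', h2', h3'⟩ := hy
  refine ⟨p * q' + p' * q, q * q', by rw [map_mul]; exact mul_ne_zero h1 h1', ?_, ?_⟩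
  · push_cast
    linear_combination (q' : L) * h2 + (q : L) * h2'
  · simp only [map_add, map_mul]
    linear_combination (c q') * h3 + (c q) * h3'

theorem Reg.mul {x y : L} {t u : k} (hx : Reg c x t) (hy : Reg c y u) : Reg c (x * y) (t * u) := by
  obtain ⟨p, q, h1, h2, h3⟩ := hx
  obtain ⟨p', q', h1', h2', h3'⟩ := hy
  refine ⟨p * p', q * q', by rw [map_mul]; exact mul_ne_zero h1 h1', ?_, ?_⟩
  · push_cast
    linear_combination (y * q' : L) * h2 + (p : L) * h2'
  · simp only [map_mul]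
    linear_combination (c p') * h3 + (t * c q) * h3'

theorem Reg.neg {x : L} {t : k} (hx : Reg c x t) : Reg c (-x) (-t) := by
  have := (Reg.const (c := c) (L := L) (-1)).mul hx
  simpa using this

theorem Reg.sub {x y : L} {t u : k} (hx : Reg c x t) (hy : Reg c y u) : Reg c (x - y) (t - u) := by
  rw [sub_eq_add_neg, sub_eq_add_neg]
  exact hx.add hy.neg

theorem Reg.ne_zero {x : L} {t : k} (hx : Reg c x t) (ht : t ≠ 0) : x ≠ 0 := by
  rintro rfl
  obtain ⟨p, q, h1, h2, h3⟩ := hx
  rw [zero_mul] at h2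
  have h4 : p = 0 := Subtype.ext h2.symm
  rw [h4, map_zero] at h3
  exact mul_ne_zero ht h1 h3.symm

theorem Reg.inv {x : L} {t : k} (hx : Reg c x t) (ht : t ≠ 0) : Reg c x⁻¹ t⁻¹ := by
  have h0 := hx.ne_zero ht
  obtain ⟨p, q, h1, h2, h3⟩ := hx
  refine ⟨q, p, by rw [h3]; exact mul_ne_zero ht h1, ?_, ?_⟩
  · rw [← h2]
    field_simp
  · rw [h3]
    field_simp

theorem Reg.div {x y : L} {t u : k} (hx : Reg c x t) (hy : Reg c y u) (hu : u ≠ 0) :
    Reg c (x / y) (t / u) := by
  rw [div_eq_mul_inv, div_eq_mul_inv]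
  exact hx.mul (hy.inv hu)

theorem Reg.unique {x : L} {t u : k} (hx : Reg c x t) (hy : Reg c x u) : t = u := by
  by_contra h
  exact (hx.sub hy).ne_zero (sub_ne_zero.2 h) (sub_self x)

theorem Reg.pow {x : L} {t : k} (hx : Reg c x t) (n : ℕ) : Reg c (x ^ n) (t ^ n) := by
  induction n with
  | zero => simpa using Reg.one (c := c) (L := L)
  | succ n ih =>
    rw [pow_succ, pow_succ]
    exact ih.mul hx

theorem Reg.aeval {x : L} {t : k} (hx : Reg c x t) (p : k[X]) :
    Reg c (aeval x p) (eval t p) := by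
  induction p using Polynomial.induction_on' with
  | add p q hp hq =>
    rw [map_add, eval_add]
    exact hp.add hq
  | monomial n a =>
    rw [aeval_monomial, eval_monomial]
    exact (Reg.const a).mul (hx.pow n)

/-- first order expansion at `c` with respect to `v - c v` -/
def Wr (c : A →ₐ[k] k) (v : A) (x : L) (t u : k) : Prop :=
  ∃ (y : L) (w : k), Reg c y w ∧ x = algebraMap k L t + algebraMap k L u *
    ((v : L) - algebraMap k L (c v)) + ((v : L) - algebraMap k L (c v)) ^ 2 * y

variable {v : A}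

theorem reg_pi : Reg c ((v : L) - algebraMap k L (c v)) 0 := by
  have := (Reg.of_mem (c := c) v).sub (Reg.const (c v))
  rwa [sub_self] at this

theorem Wr.congr {x : L} {t u t' u' : k} (h : Wr c v x t u) (ht : t = t') (hu : u = u') :
    Wr c v x t' u' := by
  rw [← ht, ← hu]
  exact h

theorem Wr.reg {x : L} {t u : k} (h : Wr c v x t u) : Reg c x t := by
  obtain ⟨y, w, hy, rfl⟩ := h
  have h1 := ((Reg.const (c := c) (L := L) t).add ((Reg.const u).mul (reg_pi (v := v)))).add
    (((reg_pi (v := v)).pow 2).mul hy)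
  simpa using h1

theorem Wr.const (t : k) : Wr c v (algebraMap k L t) t 0 :=
  ⟨0, 0, Reg.zero, by simp⟩

theorem Wr.self : Wr c v (v : L) (c v) 1 :=
  ⟨0, 0, Reg.zero, by simp⟩

theorem Wr.add {x x' : L} {t u t' u' : k} (h : Wr c v x t u) (h' : Wr c v x' t' u') :
    Wr c v (x + x') (t + t') (u + u') := by
  obtain ⟨y, w, hy, rfl⟩ := h
  obtain ⟨y', w', hy', rfl⟩ := h'
  refine ⟨y + y', w + w', hy.add hy', ?_⟩
  simp only [map_add]
  ring

theorem Wr.mul {x x' : L} {t u t' u' : k} (h : Wr c v x t u) (h' : Wr c v x' t' u') :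
    Wr c v (x * x') (t * t') (t * u' + u * t') := by
  obtain ⟨y, w, hy, rfl⟩ := h
  obtain ⟨y', w', hy', rfl⟩ := h'
  have hp := reg_pi (c := c) (v := v)
  refine ⟨algebraMap k L t * y' + algebraMap k L t' * y + algebraMap k L u * algebraMap k L u' +
    algebraMap k L u * ((v : L) - algebraMap k L (c v)) * y' +
    algebraMap k L u' * ((v : L) - algebraMap k L (c v)) * y +
    ((v : L) - algebraMap k L (c v)) ^ 2 * y * y', _,
    ((((((Reg.const t).mul hy').add ((Reg.const t').mul hy)).add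
      ((Reg.const u).mul (Reg.const u'))).add (((Reg.const u).mul hp).mul hy')).add
      (((Reg.const u').mul hp).mul hy)).add (((hp.pow 2).mul hy).mul hy'), ?_⟩
  simp only [map_add, map_mul]
  ring

theorem Wr.neg {x : L} {t u : k} (h : Wr c v x t u) : Wr c v (-x) (-t) (-u) := by
  have := (Wr.const (c := c) (v := v) (L := L) (-1)).mul h
  simpa using this

theorem Wr.sub {x x' : L} {t u t' u' : k} (h : Wr c v x t u) (h' : Wr c v x' t' u') :
    Wr c v (x - x') (t - t') (u - u') := by
  rw [sub_eq_add_neg, sub_eq_add_neg, sub_eq_add_neg]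
  exact h.add h'.neg

theorem Wr.inv {x : L} {t u : k} (h : Wr c v x t u) (ht : t ≠ 0) :
    Wr c v x⁻¹ t⁻¹ (-(u / t ^ 2)) := by
  have hr := h.reg
  have h0 := hr.ne_zero ht
  obtain ⟨y, w, hy, hx⟩ := h
  have hp := reg_pi (c := c) (v := v)
  have ht' : algebraMap k L t ≠ 0 := (_root_.map_ne_zero _).2 ht
  refine ⟨(-(algebraMap k L t * y) + algebraMap k L u ^ 2 +
    algebraMap k L u * ((v : L) - algebraMap k L (c v)) * y) / (algebraMap k L t ^ 2 * x), _,
    (((((Reg.const t).mul hy).neg.add ((Reg.const u).pow 2)).add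
      (((Reg.const u).mul hp).mul hy))).div (((Reg.const t).pow 2).mul hr)
      (mul_ne_zero (pow_ne_zero 2 ht) ht), ?_⟩
  simp only [map_neg, map_inv₀, map_div₀, map_pow]
  field_simp
  rw [hx]
  ring

theorem Wr.div {x x' : L} {t u t' u' : k} (h : Wr c v x t u) (h' : Wr c v x' t' u')
    (ht : t' ≠ 0) : Wr c v (x / x') (t / t') ((u - t / t' * u') / t') := by
  rw [div_eq_mul_inv x x']
  refine (h.mul (h'.inv ht)).congr ?_ ?_
  · rw [div_eq_mul_inv]
  · field_simp
    ring

theorem Wr.unique {x : L} {t u t' u' : k} (h : Wr c v x t u) (h' : Wr c v x t' u')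
    (hv : (v : L) - algebraMap k L (c v) ≠ 0) : u = u' := by
  have ht := h.reg.unique h'.reg
  obtain ⟨y, w, hy, hx⟩ := h
  obtain ⟨y', w', hy', hx'⟩ := h'
  have h1 : algebraMap k L (u - u') + ((v : L) - algebraMap k L (c v)) * (y - y') = 0 := by
    apply mul_left_cancel₀ hv
    rw [map_sub]
    rw [ht] at hx
    linear_combination hx' - hx
  have h2 := (Reg.const (c := c) (L := L) (u - u')).add
    ((reg_pi (c := c) (v := v)).mul (hy.sub hy'))
  rw [h1, zero_mul, add_zero] at h2
  exact sub_eq_zero.1 (h2.unique Reg.zero)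

/-- composition with an endomorphism -/
theorem Wr.map {φ : L →ₐ[k] L} (hφ : ∀ x t, Reg c x t → Reg c (φ x) t) {r : k}
    (hr : Wr c v (φ v) (c v) r) {x : L} {t u : k} (h : Wr c v x t u) :
    Wr c v (φ x) t (r * u) := by
  obtain ⟨y, w, hy, hx⟩ := h
  obtain ⟨z, w', hz, hv⟩ := hr
  have hp := reg_pi (c := c) (v := v)
  refine ⟨algebraMap k L u * z + (algebraMap k L r + ((v : L) - algebraMap k L (c v)) * z) ^ 2 *
    φ y, _, ((Reg.const u).mul hz).add ((((Reg.const r).add (hp.mul hz)).pow 2).mul (hφ y w hy)),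
    ?_⟩
  rw [hx]
  simp only [map_add, map_mul, map_sub, map_pow, AlgHom.commutes]
  rw [hv]
  ring

end Pool.Agent.PGE.H67
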